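import Pool.Agent.E8helper20.CTM.StmA
import Pool.Agent.Y100.CT.CUB3

/-!
# Project CTM: local solutions of the diagonal cubic at three, type 1 (S_CUBM1)
-/

set_option autoImplicit false
set_option linter.unusedSectionVars false
set_option linter.unusedVariables false

namespace Pool.Agent.E8helper7.CTM

open Pool.Agent.Y692.QS
open Pool.Agent.Y715.T.Gi Pool.Agent.Y715.T.Nr Pool.Agent.Y715.T.Df Pool.Agent.Y715.T.Ell
open Pool.Agent.Y715.T.Red Pool.Agent.Y715.T.Thr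
open Pool.Agent.Y703.CT
open Pool.Agent.Y100.CT.CUB3 (root norm_nine)
open Pool.Agent.E8helper20.CTM (xd c2 c3 lf)
open Pool.Agent.E8helper20.CTK3 (yd)

/-- a solution with `t = 1` -/
lemma sol_of {I : PadicAlgCl 3} (hI : I ^ 2 + I + 1 = 0) {B A r z : Ei}
    (hz : B ^ 2 + B * A * r ^ 3 = 1 + 9 * z) : ∃ s t r', Sol hI B A s t r' := by
  have hfix : ∀ z : Ei, ∀ τ : Au 3, τ I = I → τ (ev I hI z) = ev I hI z :=
    fun z τ hτ => ev_fix hI hτ z
  obtain ⟨s, hs, hs0, hsf⟩ := root hI (c := ev I hI (1 + 9 * z)) (hfix _) (by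
    rw [map_add, map_one, add_sub_cancel_left]
    exact norm_nine hI z)
  refine ⟨s, 1, ev I hI r, ⟨fun τ hτ => ⟨hsf τ hτ, map_one τ, hfix _ τ hτ⟩, Or.inl hs0, ?_⟩⟩
  rw [hs, ← hz, map_add, map_mul, map_mul, map_pow, map_pow]
  ring

/-- Fermat -/
lemma cube_mod (n : ℤ) : ∃ m : ℤ, n ^ 3 = n + 3 * m := by
  obtain ⟨q, r, hr, hn⟩ : ∃ q r : ℤ, (r = 0 ∨ r = 1 ∨ r = 2) ∧ n = 3 * q + r := by
    rcases (by omega : n % 3 = 0 ∨ n % 3 = 1 ∨ n % 3 = 2) with h | h | h
    · exact ⟨n / 3, 0, Or.inl rfl, by omega⟩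
    · exact ⟨n / 3, 1, Or.inr (Or.inl rfl), by omega⟩
    · exact ⟨n / 3, 2, Or.inr (Or.inr rfl), by omega⟩
  rcases hr with rfl | rfl | rfl
  · exact ⟨9 * q ^ 3 - q, by rw [hn]; ring⟩
  · exact ⟨9 * q ^ 3 + 9 * q ^ 2 + 2 * q, by rw [hn]; ring⟩
  · exact ⟨9 * q ^ 3 + 18 * q ^ 2 + 11 * q + 2, by rw [hn]; ring⟩

/-- the case `k = 1`: `B` is `1 + 3 n W` modulo `9` -/
lemma cub_one {I : PadicAlgCl 3} (hI : I ^ 2 + I + 1 = 0) {B D W β : Ei} {n : ℤ}
    (hB : B = 1 + 3 * ((n : Ei) * W + 3 * β)) (hD : (3 : Ei) ∣ D - 1) :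
    ∃ s t r', Sol hI B (3 * W * D) s t r' := by
  obtain ⟨d, hd⟩ := hD
  obtain ⟨m, hm⟩ := cube_mod n
  have hm' : (n : Ei) ^ 3 = n + 3 * (m : Ei) := by exact_mod_cast congrArg (Int.cast : ℤ → Ei) hm
  have eD : D = 1 + 3 * d := by linear_combination hd
  obtain ⟨e, he⟩ : ∃ e : Ei, e = (n : Ei) * W + 3 * β := ⟨_, rfl⟩
  refine sol_of hI (r := (n : Ei))
    (z := e ^ 2 + n * W + 2 * β + W * m + W * (e + d + 3 * e * d) * (n + 3 * m)) ?_
  rw [← he] at hB
  rw [hB, eD]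
  linear_combination 3 * W * (1 + 3 * e) * (1 + 3 * d) * hm' + 6 * he

/-- the case `k = 0`: `B` is `1 + 3 n (1 - ω)` modulo `9` -/
lemma cub_zero {I : PadicAlgCl 3} (hI : I ^ 2 + I + 1 = 0) {B D W κ β : Ei} {n : ℤ}
    (hB : B = 1 + 3 * ((n : Ei) * (1 - w) + 3 * β)) (hD : (3 : Ei) ∣ D - 1)
    (hW : 2 * (1 - w) + W * lam = 3 * κ) :
    ∃ s t r', Sol hI B (W * D) s t r' := by
  obtain ⟨d, hd⟩ := hD
  obtain ⟨m, hm⟩ := cube_mod n
  have hm' : (n : Ei) ^ 3 = n + 3 * (m : Ei) := by exact_mod_cast congrArg (Int.cast : ℤ → Ei) hm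
  have eD : D = 1 + 3 * d := by linear_combination hd
  obtain ⟨e, he⟩ : ∃ e : Ei, e = (n : Ei) * (1 - w) + 3 * β := ⟨_, rfl⟩
  have hl : (lam : Ei) ^ 2 = -3 := Pool.Agent.Y715.T.Gi.lam_sq
  have h3 : (-(lam * (n : Ei))) ^ 3 = 3 * lam * (n + 3 * m) := by
    rw [← hm']
    linear_combination (-lam * (n : Ei) ^ 3) * hl
  refine sol_of hI (r := -(lam * (n : Ei)))
    (z := e ^ 2 + n * κ + 2 * β + W * lam * m + W * lam * (e + d + 3 * e * d) * (n + 3 * m)) ?_
  rw [← he] at hB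
  rw [h3, hB, eD]
  linear_combination 6 * he + 3 * (n : Ei) * hW

/-- **M10 CUBM1** -/
theorem t_CUBM1 : Pool.Agent.E8helper20.CTM.S_CUBM1 := by
  intro k b hk hb hkb _ I hI B D hB hlf hD
  have hw := w_sq
  obtain ⟨β, hβ⟩ := hB
  have eB : B = 1 + 3 * β := by linear_combination hβ
  have r3 : (3 : Ei).re = 3 := rfl
  have i3 : (3 : Ei).im = 0 := rfl
  have r1 : (1 : Ei).re = 1 := rfl
  have i1 : (1 : Ei).im = 0 := rfl
  have him : B.im = 3 * β.im := by
    rw [eB, QuadraticAlgebra.im_add, mul_im, r3, i3, i1]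
    ring
  have hre : B.re = 1 + 3 * β.re := by
    rw [eB, QuadraticAlgebra.re_add, mul_re, r3, i3, r1]
    ring
  have hx : xd B = (β.re : ZMod 3) := by
    unfold xd
    congr 1
    rw [hre]
    omega
  have hy : yd B = (β.im : ZMod 3) := by
    unfold yd
    congr 1
    rw [him]
    omega
  unfold lf c2 c3 at hlf
  rw [hx, hy] at hlf
  have hη : β = (β.re : Ei) + (β.im : Ei) * w := by
    exact (eta β)
  obtain ⟨x, hx'⟩ : ∃ x : ℤ, x = β.re := ⟨_, rfl⟩
  obtain ⟨y, hy'⟩ : ∃ y : ℤ, y = β.im := ⟨_, rfl⟩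
  rw [← hx', ← hy'] at hlf hη
  have cst : ∀ z m : ℤ, z = 3 * m → (z : Ei) = 3 * (m : Ei) := by
    intro z m h
    exact_mod_cast congrArg (Int.cast : ℤ → Ei) h
  interval_cases k
  · -- `k = 0`
    have hxy : (3 : ℤ) ∣ x + y := by
      apply (ZMod.intCast_zmod_eq_zero_iff_dvd (x + y) 3).1
      push_cast
      interval_cases b
      · omega
      · linear_combination -hlf
      · have h3 : (3 : ZMod 3) = 0 := rfl
        push_cast at hlf
        linear_combination hlf + ((x : ZMod 3) + y) * h3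
    obtain ⟨m, hm⟩ := hxy
    have hm' : (x : Ei) + (y : Ei) = 3 * (m : Ei) := by
      exact_mod_cast congrArg (Int.cast : ℤ → Ei) hm
    obtain ⟨κ, hκ⟩ : ∃ κ : Ei, 2 * (1 - w) + w ^ b * lam = 3 * κ := by
      have hl : (lam : Ei) = 1 + 2 * w := by decide
      rw [hl]
      interval_cases b
      · exact ⟨1, by ring⟩
      · exact ⟨-w, by linear_combination 2 * hw⟩
      · exact ⟨1 - w, by linear_combination (2 * w - 1) * hw⟩
    rw [pow_zero, one_mul]
    refine cub_zero hI (n := x) (β := m * w) ?_ hD hκ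
    rw [eB, hη]
    linear_combination 3 * w * hm'
  · -- `k = 1`
    rw [pow_one]
    interval_cases b
    · have h1 : (3 : ℤ) ∣ y := by
        apply (ZMod.intCast_zmod_eq_zero_iff_dvd y 3).1
        push_cast at hlf
        linear_combination hlf
      obtain ⟨m, hm⟩ := h1
      refine cub_one hI (n := x) (β := m * w) ?_ hD
      rw [eB, hη]
      linear_combination 3 * w * cst _ _ hm
    · have h1 : (3 : ℤ) ∣ x := by
        apply (ZMod.intCast_zmod_eq_zero_iff_dvd x 3).1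
        push_cast at hlf
        linear_combination -hlf
      obtain ⟨m, hm⟩ := h1
      refine cub_one hI (n := y) (β := m) ?_ hD
      rw [eB, hη]
      linear_combination 3 * cst _ _ hm
    · have h1 : (3 : ℤ) ∣ x - y := by
        apply (ZMod.intCast_zmod_eq_zero_iff_dvd (x - y) 3).1
        have h3 : (3 : ZMod 3) = 0 := rfl
        push_cast at hlf ⊢
        linear_combination hlf + (x : ZMod 3) * h3
      obtain ⟨m, hm⟩ := h1
      have hm' : (x : Ei) - (y : Ei) = 3 * (m : Ei) := by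
        exact_mod_cast congrArg (Int.cast : ℤ → Ei) hm
      refine cub_one hI (n := -x) (β := -(m * w)) ?_ hD
      rw [eB, hη]
      push_cast
      linear_combination (-3 * w) * hm' + 3 * (x : Ei) * hw

end Pool.Agent.E8helper7.CTM
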