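import Pool.Agent.E8helper7.CTM.Loc1C
import Pool.Agent.E8helper20.CTM.StmA

/-!
# Project CTM: the local condition at the prime above three, type 1 (S_LOCM1)
-/

set_option autoImplicit false
set_option linter.unusedVariables false

namespace Pool.Agent.E8helper7.CTM

/-- **M9 LOCM1** -/
theorem t_LOCM1 : Pool.Agent.E8helper20.CTM.S_LOCM1 := by
  intro k b hk hb hkb i₀ hi D hD3 u a hT h v q g hv hK hF ι R hS
  refine ⟨?_, ?_⟩
  · rintro rfl
    rw [pow_zero, one_mul] at hT
    exact loc_zero hD3 hT hv hK hS
  · rintro rfl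
    rw [pow_one] at hT
    exact loc_one hD3 hT hv hK hS

end Pool.Agent.E8helper7.CTM
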