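import Pool.Agent.E8helper20.CT3.Stm
import Pool.Agent.Y180.CT.Loc3
import Pool.Agent.E8helper87.CT3.Loc33

/-!
# Project CTM: the local condition at the prime above three, type 1 (the core of S_LOCM1)
-/

set_option autoImplicit false
set_option linter.unusedSectionVars false
set_option linter.unusedVariables false

namespace Pool.Agent.E8helper7.CTM

open WeierstrassCurve
open Pool.Agent.Y692.QS
open Pool.Agent.Y715.T.Gi Pool.Agent.Y715.T.Nr Pool.Agent.Y715.T.Df Pool.Agent.Y715.T.Ell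
open Pool.Agent.Y715.T.Red Pool.Agent.Y715.T.Thr
open Pool.Agent.Y703.CT
open Pool.Agent.Y180.CT
open Pool.Agent.E8helper87.CT3 (six_val lt_of_zpow ev_lam_sq)

open scoped Classical

variable {I : PadicAlgCl 3}

/-- **the ordinate is a cube times a power of `δ` modulo `1 + 3 O`, `|δ| = 1 / 3`** -/
theorem ord_cubeδ (hI : I ^ 2 + I + 1 = 0) {δ X Y : PadicAlgCl 3} (hδm : δ ∈ Kl I)
    (hδn : ‖δ‖ = 3⁻¹) (hX : X ∈ Kl I) (hY : Y ∈ Kl I) (hY0 : Y ≠ 0)
    (he : Y ^ 2 + δ * Y = X ^ 3) :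
    ∃ c : ℕ, ∃ V ∈ Kl I, V ≠ 0 ∧ ∃ t ∈ Kl I, ‖t‖ ≤ 1 ∧
      Y = δ ^ c * V ^ 3 * (1 + 3 * t) := by
  have h3n := norm_three'
  have h30 : (3 : PadicAlgCl 3) ≠ 0 := three_ne_zero
  have hδ0 : δ ≠ 0 := by
    rintro rfl
    rw [norm_zero] at hδn
    norm_num at hδn
  have hYp : 0 < ‖Y‖ := norm_pos_iff.2 hY0
  rcases lt_trichotomy ‖Y‖ 3⁻¹ with h1 | h1 | h1
  · -- `Y` is small
    have h2 : ‖Y + δ‖ = 3⁻¹ := by
      rw [add_comm, eq_of_lt, hδn]
      rwa [hδn]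
    have h3 : ‖Y‖ * 3⁻¹ = ‖X‖ ^ 3 := by
      rw [← norm_pow, ← he, ← h2, ← norm_mul]
      congr 1
      ring
    have hX0 : X ≠ 0 := by
      rintro rfl
      rw [norm_zero, zero_pow three_ne_zero] at h3
      have : 0 < ‖Y‖ * 3⁻¹ := by positivity
      linarith
    obtain ⟨m, hm⟩ := six_val hI hX hX0
    have h4 : ‖Y‖ ^ 2 = (3 : ℝ) ^ (3 * m + 2) := by
      rw [zpow_add₀ (by norm_num), ← hm]
      have e : ‖X‖ ^ 6 = (‖X‖ ^ 3) ^ 2 := by ring
      rw [e, ← h3]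
      norm_num
      ring
    have h5 : ‖Y‖ ^ 2 < (3 : ℝ) ^ (-2 : ℤ) := by
      have e : (3 : ℝ) ^ (-2 : ℤ) = (3⁻¹) ^ 2 := by norm_num
      rw [e]
      exact pow_lt_pow_left₀ h1 hYp.le two_ne_zero
    rw [h4] at h5
    have h6 := lt_of_zpow h5
    have h7 : ‖Y‖ ≤ 9⁻¹ := by
      have e : ‖Y‖ ^ 2 ≤ (9⁻¹ : ℝ) ^ 2 := by
        rw [h4]
        have e : ((9⁻¹ : ℝ)) ^ 2 = (3 : ℝ) ^ (-4 : ℤ) := by norm_num
        rw [e]
        exact zpow_le_zpow_right₀ (by norm_num) (by omega)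
      exact (pow_le_pow_iff_left₀ hYp.le (by norm_num) two_ne_zero).1 e
    have h8 : ‖Y / (3 * δ)‖ ≤ 1 := by
      rw [norm_div, norm_mul, h3n, hδn, div_le_one (by norm_num)]
      norm_num
      linarith
    obtain ⟨t, ht, ht1, e⟩ := inv_exK (div_mem hY (mul_mem three_memK hδm)) h8
    refine ⟨2, X / δ, div_mem hX hδm, div_ne_zero hX0 hδ0, t, ht, ht1, ?_⟩
    have e1 : X ^ 3 = Y * δ * (1 + 3 * (Y / (3 * δ))) := by
      rw [← he]
      field_simp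
      ring
    have e2 : δ ^ 2 * (X / δ) ^ 3 * (1 + 3 * t) = X ^ 3 / δ * (1 + 3 * t) := by
      field_simp
    rw [e2, e1]
    have e3 : Y * δ * (1 + 3 * (Y / (3 * δ))) / δ * (1 + 3 * t) =
        Y * ((1 + 3 * (Y / (3 * δ))) * (1 + 3 * t)) := by
      field_simp
    rw [e3, e, mul_one]
  · -- `Y` and `δ` have the same norm
    have h2 : ‖Y + δ‖ ≤ 3⁻¹ := by
      refine (PadicAlgCl.isNonarchimedean 3 Y δ).trans ?_
      rw [h1, hδn, max_self]
    have h9 : ‖Y + δ‖ ≤ 9⁻¹ := by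
      by_cases h0 : Y + δ = 0
      · rw [h0, norm_zero]
        norm_num
      have h3 : ‖Y + δ‖ * 3⁻¹ = ‖X‖ ^ 3 := by
        rw [← norm_pow, ← he, ← h1, ← norm_mul]
        congr 1
        ring
      have hX0 : X ≠ 0 := by
        rintro rfl
        rw [norm_zero, zero_pow three_ne_zero] at h3
        have h5 : 0 < ‖Y + δ‖ := norm_pos_iff.2 h0
        have : 0 < ‖Y + δ‖ * 3⁻¹ := by positivity
        linarith
      obtain ⟨m, hm⟩ := six_val hI hX hX0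
      have h4 : ‖Y + δ‖ ^ 2 = (3 : ℝ) ^ (3 * m + 2) := by
        rw [zpow_add₀ (by norm_num), ← hm]
        have e : ‖X‖ ^ 6 = (‖X‖ ^ 3) ^ 2 := by ring
        rw [e, ← h3]
        norm_num
        ring
      have h5 : ‖Y + δ‖ ^ 2 ≤ (3 : ℝ) ^ (-2 : ℤ) := by
        have e : (3 : ℝ) ^ (-2 : ℤ) = (3⁻¹) ^ 2 := by norm_num
        rw [e]
        exact pow_le_pow_left₀ (norm_nonneg _) h2 2
      rw [h4] at h5
      have h6 : 3 * m + 2 ≤ -2 := (zpow_le_zpow_iff_right₀ (by norm_num : (1 : ℝ) < 3)).1 h5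
      have e : ‖Y + δ‖ ^ 2 ≤ (9⁻¹ : ℝ) ^ 2 := by
        rw [h4]
        have e : ((9⁻¹ : ℝ)) ^ 2 = (3 : ℝ) ^ (-4 : ℤ) := by norm_num
        rw [e]
        exact zpow_le_zpow_right₀ (by norm_num) (by omega)
      exact (pow_le_pow_iff_left₀ (norm_nonneg _) (by norm_num) two_ne_zero).1 e
    refine ⟨1, -1, neg_mem (one_mem _), neg_ne_zero.2 one_ne_zero, -((Y + δ) / (3 * δ)),
      neg_mem (div_mem (add_mem hY hδm) (mul_mem three_memK hδm)), ?_, ?_⟩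
    · rw [norm_neg, norm_div, norm_mul, h3n, hδn, div_le_one (by norm_num)]
      norm_num
      linarith
    · field_simp
      ring
  · -- `Y` is large
    have h2 : ‖Y ^ 2 + δ * Y‖ = ‖Y‖ ^ 2 := by
      rw [eq_of_lt, norm_pow]
      rw [norm_mul, hδn, norm_pow]
      nlinarith
    have h3 : ‖Y‖ ^ 2 = ‖X‖ ^ 3 := by
      rw [← norm_pow X, ← he, h2]
    obtain ⟨m, hm⟩ := cube_val' hI hY hX hY0 h3
    have h4 : 1 ≤ ‖Y‖ := by
      have h5 : (3 : ℝ) ^ (-2 : ℤ) < ‖Y‖ ^ 2 := by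
        have e : (3 : ℝ) ^ (-2 : ℤ) = (3⁻¹) ^ 2 := by norm_num
        rw [e]
        exact pow_lt_pow_left₀ h1 (by norm_num) two_ne_zero
      rw [hm] at h5
      have h6 := lt_of_zpow h5
      have h7 : (1 : ℝ) ^ 2 ≤ ‖Y‖ ^ 2 := by
        rw [hm, one_pow]
        exact one_le_zpow₀ (by norm_num) (by omega)
      exact (pow_le_pow_iff_left₀ zero_le_one hYp.le two_ne_zero).1 h7
    have hX0 : X ≠ 0 := by
      rintro rfl
      rw [norm_zero, zero_pow three_ne_zero] at h3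
      exact hY0 (norm_eq_zero.1 (pow_eq_zero_iff two_ne_zero |>.1 h3))
    refine ⟨0, Y / X, div_mem hY hX, div_ne_zero hY0 hX0, δ / (3 * Y),
      div_mem hδm (mul_mem three_memK hY), ?_, ?_⟩
    · rw [norm_div, norm_mul, hδn, h3n, div_le_one (by positivity)]
      nlinarith
    · have hX3 : X ^ 3 ≠ 0 := pow_ne_zero 3 hX0
      rw [div_pow, ← he]
      rw [← he] at hX3
      have h8 : 1 + 3 * (δ / (3 * Y)) = (Y ^ 2 + δ * Y) / Y ^ 2 := by
        field_simp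
      rw [h8, pow_zero, one_mul, div_mul_div_cancel₀ hX3]
      field_simp

/-- **the norm of the ordinate is a cube when `|δ| = 1`** -/
theorem ord_norm {δ X Y : PadicAlgCl 3} (hδn : ‖δ‖ = 1) (hX : X ∈ Kl I) (hY : Y ∈ Kl I)
    (hY0 : Y ≠ 0) (he : Y ^ 2 + δ * Y = X ^ 3) :
    ∃ V ∈ Kl I, V ≠ 0 ∧ ‖Y‖ = ‖V‖ ^ 3 := by
  have hYp : 0 < ‖Y‖ := norm_pos_iff.2 hY0
  rcases lt_trichotomy ‖Y‖ 1 with h1 | h1 | h1
  · have h2 : ‖Y + δ‖ = 1 := by
      rw [add_comm, eq_of_lt, hδn]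
      rwa [hδn]
    have h3 : ‖Y‖ = ‖X‖ ^ 3 := by
      rw [← norm_pow, ← he]
      have e : Y ^ 2 + δ * Y = Y * (Y + δ) := by ring
      rw [e, norm_mul, h2, mul_one]
    refine ⟨X, hX, ?_, h3⟩
    rintro rfl
    rw [norm_zero, zero_pow three_ne_zero] at h3
    linarith
  · exact ⟨1, one_mem _, one_ne_zero, by rw [h1, norm_one, one_pow]⟩
  · have h2 : ‖Y ^ 2 + δ * Y‖ = ‖Y‖ ^ 2 := by
      rw [eq_of_lt, norm_pow]
      rw [norm_mul, hδn, one_mul, norm_pow]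
      nlinarith
    have h3 : ‖Y‖ ^ 2 = ‖X‖ ^ 3 := by
      rw [← norm_pow X, ← he, h2]
    have hX0 : X ≠ 0 := by
      rintro rfl
      rw [norm_zero, zero_pow three_ne_zero] at h3
      exact hY0 (norm_eq_zero.1 (pow_eq_zero_iff two_ne_zero |>.1 h3))
    refine ⟨Y / X, div_mem hY hX, div_ne_zero hY0 hX0, ?_⟩
    rw [norm_div, div_pow, ← h3]
    field_simp

section final

variable {i₀ : QB} {hi : i₀ ^ 2 + i₀ + 1 = 0} {A : Ei} {u : QB} {a h : GK i₀ → ZMod 3}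
  {ι : QB →ₐ[ℚ] PadicAlgCl 3} {R : Pt (PadicAlgCl 3)}

/-- **the core**: the class of a generator in terms of the ordinates -/
theorem coreG (hA0 : A ≠ 0) (hT : Tw hi A u a) {z : Ei} (hz0 : z ≠ 0) (hK : Kc hi z h)
    (hS : St1 hi ι a h R) (Q : PadicAlgCl 3 → Prop) (hQ1 : Q 1)
    (hQ : ∀ X ∈ Kl (ι i₀), ∀ Y ∈ Kl (ι i₀), Y ≠ 0 →
      Y ^ 2 + ev (ι i₀) (iota_sq' hi ι) A * Y = X ^ 3 → ∃ c : ℕ, ∃ V ∈ Kl (ι i₀), V ≠ 0 ∧
        ∃ ε, Q ε ∧ Y = ev (ι i₀) (iota_sq' hi ι) A ^ c * V ^ 3 * ε) :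
    ∃ c : ℕ, ∃ V ∈ Kl (ι i₀), V ≠ 0 ∧ ∃ ε, Q ε ∧
      ev (ι i₀) (iota_sq' hi ι) z * ev (ι i₀) (iota_sq' hi ι) A ^ c * ε = V ^ 3 := by
  have hI := iota_sq' hi ι
  have hI3 : ι i₀ ^ 3 = 1 := by linear_combination (ι i₀ - 1) * hI
  obtain ⟨δ, hδ⟩ : ∃ δ, δ = ev (ι i₀) hI A := ⟨_, rfl⟩
  have hδ0 : δ ≠ 0 := by rw [hδ]; exact ev_ne hI hA0
  have hδm : δ ∈ Kl (ι i₀) := by rw [hδ]; exact ev_mem hI A
  have hU3 : ι u ^ 3 = δ := by
    rw [← map_pow, hT.cube, iota_ev' hi ι, hδ]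
  have hU0 : ι u ≠ 0 := by
    intro h0
    rw [h0, zero_pow three_ne_zero] at hU3
    exact hδ0 hU3.symm
  rw [← hδ] at hQ ⊢
  -- the cube root
  obtain ⟨s, hs⟩ := IsAlgClosed.exists_pow_nat_eq (ev i₀ hi z)
    (n := 3) (by norm_num)
  have hZ : ι s ^ 3 = ev (ι i₀) hI z := by
    rw [← map_pow, hs, iota_ev' hi ι]
  have hts : ∀ (τ : Au 3) (σ : GK i₀), Cmp ι τ σ → τ (ι s) = ι i₀ ^ (h σ).val * ι s := by
    intro τ σ hc
    rw [hc, hK s hs σ, map_mul, map_pow]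
  have hZ0 : ι s ^ 3 ≠ 0 := by
    rw [hZ]
    exact ev_ne hI hz0
  have hs0 : ι s ≠ 0 := fun h0 => hZ0 (by rw [h0, zero_pow three_ne_zero])
  have hZm : ι s ^ 3 ∈ Kl (ι i₀) := by rw [hZ]; exact ev_mem hI _
  by_cases hQ0 : R - im (isE _) hI R = 0
  · -- `R` is a multiple of `T`
    obtain ⟨c, hc⟩ := ker_tt hI hQ0
    have hm : ι s ∈ Kl (ι i₀) := by
      intro τ hτ
      obtain ⟨σ, hcm⟩ := exists_cmp ι τ hτ
      have h1 := hS τ σ hcm
      rw [hc, pm_tt, jj_tt, sub_self] at h1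
      have h2 := tt_eq_zero.1 h1.symm
      rw [hts τ σ hcm, h2, ZMod.val_zero, pow_zero, one_mul]
    exact ⟨0, ι s, hm, hs0, 1, hQ1, by rw [hZ]; ring⟩
  · obtain ⟨x, y, hn, hR⟩ : ∃ x y, ∃ hn : (W0.baseChange (PadicAlgCl 3)).toAffine.Nonsingular x y,
        R = .some x y hn := by
      rcases R with _ | ⟨x, y, hn⟩
      · exfalso
        apply hQ0
        show (0 : Pt (PadicAlgCl 3)) - im (isE _) hI 0 = 0
        rw [map_zero, sub_zero]
      · exact ⟨x, y, hn, rfl⟩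
    have he := ((isE _).eqn x y).1 hn.1
    have hx : x ≠ 0 := by
      intro h0
      apply hQ0
      rw [hR, im_some, sub_eq_zero, Affine.Point.some.injEq]
      exact ⟨by rw [h0, mul_zero], rfl⟩
    obtain ⟨XQ, hnQ, eQ⟩ : ∃ XQ, ∃ hnQ : (W0.baseChange (PadicAlgCl 3)).toAffine.Nonsingular XQ
        (gg (ι i₀) R ^ 3), R - im (isE _) hI R = .some XQ _ hnQ := by
      rw [hR]
      obtain ⟨XQ, hnQ, eQ, -⟩ := one_sub_im (isE _) hI hn hx
      exact ⟨XQ, hnQ, eQ⟩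
    by_cases hG : gg (ι i₀) R = 0
    · -- `R - J R = T`
      have hlam := lam_ne (isE (PadicAlgCl 3)) hI
      have hy : y = ι i₀ ^ 2 := by
        rw [hR, gg_some, div_eq_zero_iff] at hG
        rcases hG with h1 | h1
        · exact sub_eq_zero.1 h1
        · exact absurd h1 (mul_ne_zero hlam hx)
      have h0 := (isE (PadicAlgCl 3)).neg_nons hn
      have hR' : -R = .some x (-y - 1) h0 := by
        rw [hR]
        exact (isE _).neg_eq hn h0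
      have hgg : gg (ι i₀) (-R) = 1 / x := by
        rw [hR', gg_some, hy, div_eq_div_iff (mul_ne_zero hlam hx) hx]
        linear_combination (-2 * x) * hI
      have hx3 : x ^ 3 = -1 := by
        rw [← he, hy]
        linear_combination (ι i₀ ^ 2 - ι i₀ + 1) * hI
      have hW3 : (ι u * gg (ι i₀) (-R)) ^ 3 = (-1) ^ 3 * δ := by
        rw [hgg, mul_pow, hU3, div_pow, hx3]
        ring
      have hW0 : ι u * gg (ι i₀) (-R) ≠ 0 := by
        rw [hgg]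
        exact mul_ne_zero hU0 (div_ne_zero one_ne_zero hx)
      obtain ⟨W, hW⟩ : ∃ W, W = ι u * gg (ι i₀) (-R) := ⟨_, rfl⟩
      have hm : ι s / W ∈ Kl (ι i₀) := by
        rw [hW]
        intro τ hτ
        obtain ⟨σ, hcm⟩ := exists_cmp ι τ hτ
        rw [map_div₀, hts τ σ hcm, tau_g hT (st1_neg hS) hR' hx hcm]
        have h1 := pow_three hI (-h σ)
        rw [neg_neg] at h1
        rw [← h1, mul_div_mul_left]
        exact pow_ne_zero _ (I_ne (isE (PadicAlgCl 3)) hI)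
      rw [← hW] at hW3 hW0
      have hd3 : (ι s / W) ^ 3 * ((-1) ^ 3 * δ) = ι s ^ 3 := by
        rw [← hW3, ← mul_pow, div_mul_cancel₀ _ hW0]
      refine ⟨2, -(ι s / W) * δ, mul_mem (neg_mem hm) hδm,
        mul_ne_zero (neg_ne_zero.2 (div_ne_zero hs0 hW0)) hδ0, 1, hQ1, ?_⟩
      rw [← hZ]
      linear_combination (-δ ^ 2) * hd3
    · -- the general case
      have hW0 : ι u * gg (ι i₀) R ≠ 0 := mul_ne_zero hU0 hG
      have hm : ι s * (ι u * gg (ι i₀) R) ∈ Kl (ι i₀) := by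
        intro τ hτ
        obtain ⟨σ, hcm⟩ := exists_cmp ι τ hτ
        rw [map_mul, hts τ σ hcm, tau_g hT hS hR hx hcm]
        have h1 := pow_cancel hI (h σ)
        linear_combination (ι s * (ι u * gg (ι i₀) R)) * h1
      obtain ⟨W, hW⟩ : ∃ W, W = ι u * gg (ι i₀) R := ⟨_, rfl⟩
      rw [← hW] at hm hW0
      have hYm : W ^ 3 ∈ Kl (ι i₀) := by
        have e : W ^ 3 = (ι s * W) ^ 3 / ι s ^ 3 := by
          rw [mul_pow, mul_div_cancel_left₀ _ hZ0]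
        rw [e]
        exact div_mem (pow_mem hm 3) hZm
      have hXm : ι u ^ 2 * XQ ∈ Kl (ι i₀) := tau_X hT hS eQ
      have heq := ((isE _).eqn _ _).1 hnQ.1
      have heY : (W ^ 3) ^ 2 + δ * W ^ 3 = (ι u ^ 2 * XQ) ^ 3 := by
        rw [hW, ← hU3]
        linear_combination (ι u ^ 6) * heq
      obtain ⟨c, V, hV, hV0, ε, hε, eY⟩ := hQ _ hXm _ hYm (pow_ne_zero 3 hW0) heY
      refine ⟨c, ι s * W / V, div_mem hm hV, div_ne_zero (mul_ne_zero hs0 hW0) hV0, ε, hε, ?_⟩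
      have hV3 : V ^ 3 ≠ 0 := pow_ne_zero 3 hV0
      rw [div_pow, eq_div_iff hV3, ← hZ]
      linear_combination (-ι s ^ 3) * eY

/-- powers of an element congruent to one modulo three -/
lemma pow_one_mod {D : Ei} (hD : (3 : Ei) ∣ D - 1) (c : ℕ) : (3 : Ei) ∣ D ^ c - 1 := by
  have h := sub_dvd_pow_sub_pow D 1 c
  rw [one_pow] at h
  exact hD.trans h

lemma w_cube : (w : Ei) ^ 3 = 1 := by
  have := w_sq
  linear_combination (w - 1) * this

lemma ne_of_mod {z : Ei} (hI : I ^ 2 + I + 1 = 0) (hz : (3 : Ei) ∣ z - 1) :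
    z ≠ 0 ∧ ‖ev I hI z‖ = 1 := by
  obtain ⟨q, hq⟩ := hz
  have e : ev I hI z = 1 + 3 * ev I hI q := by
    have : z = 1 + 3 * q := by linear_combination hq
    rw [this, map_add, map_mul, map_ofNat, map_one]
  have h1 : ‖ev I hI z‖ = 1 := by
    rw [e]
    exact norm_one_add (ev_le hI q)
  refine ⟨?_, h1⟩
  rintro rfl
  rw [map_zero, norm_zero] at h1
  exact zero_ne_one h1

lemma w_ne : (w : Ei) ≠ 0 := by
  intro h
  have := w_cube
  rw [h, zero_pow three_ne_zero] at this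
  exact zero_ne_one this

/-- the case `k = 1` -/
theorem loc_one {b : ℕ} {D : Ei} (hD3 : (3 : Ei) ∣ D - 1) (hT : Tw hi (3 * w ^ b * D) u a)
    {v q : Ei} {g : ℕ} (hv : IsUnit v) (hK : Kc hi (v * lam ^ g * (1 + 3 * q)) h)
    (hS : St1 hi ι a h R) : v = w ^ (2 * b * g) ∨ v = -w ^ (2 * b * g) := by
  have hI := iota_sq' hi ι
  have hI3 : ι i₀ ^ 3 = 1 := by linear_combination (ι i₀ - 1) * hI
  have hw3 := w_cube
  have h30 : (3 : Ei) ≠ 0 := by
    intro h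
    have := congrArg (ev (ι i₀) hI) h
    rw [map_ofNat, map_zero] at this
    exact three_ne_zero this
  have hD0 := ne_of_mod hI hD3
  have hA0 : 3 * w ^ b * D ≠ 0 := mul_ne_zero (mul_ne_zero h30 (pow_ne_zero _ w_ne)) hD0.1
  have hz0 : v * lam ^ g * (1 + 3 * q) ≠ 0 := by
    refine mul_ne_zero (mul_ne_zero hv.ne_zero (pow_ne_zero _ prime_lam.ne_zero)) ?_
    exact (ne_of_mod hI (z := 1 + 3 * q) ⟨q, by ring⟩).1
  have hwn : ‖ev (ι i₀) hI w‖ = 1 := by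
    have h1 : ev (ι i₀) hI w ^ 3 = 1 := by rw [← map_pow, hw3, map_one]
    have h2 := congrArg norm h1
    rw [norm_pow, norm_one] at h2
    exact (pow_eq_one_iff_of_nonneg (norm_nonneg _) three_ne_zero).1 h2
  have hδn : ‖ev (ι i₀) hI (3 * w ^ b * D)‖ = 3⁻¹ := by
    rw [map_mul, map_mul, map_pow, map_ofNat, norm_mul, norm_mul, norm_pow, hwn, one_pow, hD0.2,
      norm_three', mul_one, mul_one]
  obtain ⟨c, V, hV, hV0, ε, ⟨t, ht, ht1, rfl⟩, e⟩ := coreG hA0 hT hz0 hK hS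
    (fun ε => ∃ t ∈ Kl (ι i₀), ‖t‖ ≤ 1 ∧ ε = 1 + 3 * t)
    ⟨0, zero_mem _, by rw [norm_zero]; exact zero_le_one, by ring⟩ (by
      intro X hX Y hY hY0 he
      obtain ⟨c, V, hV, hV0, t, ht, ht1, e⟩ := ord_cubeδ hI (ev_mem hI _) hδn hX hY hY0 he
      exact ⟨c, V, hV, hV0, _, ⟨t, ht, ht1, rfl⟩, e⟩)
  obtain ⟨t', ht', ht1', et⟩ := inv_exK ht ht1
  obtain ⟨q', hq'⟩ := pow_one_mod hD3 c
  have key : v * lam ^ g * (1 + 3 * q) * (3 * w ^ b * D) ^ c =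
      (v * ((-1) ^ c * w ^ (b * c))) * lam ^ (g + 2 * c) * (1 + 3 * (q + q' + 3 * q * q')) := by
    have e1 : (3 : Ei) ^ c = (-1) ^ c * lam ^ (2 * c) := by
      rw [pow_mul, lam_sq, ← mul_pow]
      norm_num
    have e2 : D ^ c = 1 + 3 * q' := by linear_combination hq'
    rw [mul_pow, mul_pow, e1, e2, ← pow_mul, pow_add]
    ring
  have hu : IsUnit (v * ((-1) ^ c * w ^ (b * c))) := by
    refine hv.mul ((isUnit_one.neg.pow c).mul (IsUnit.pow _ ?_))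
    exact IsUnit.of_mul_eq_one (w ^ 2) (by linear_combination hw3)
  have h1 := fin_of (q := q + q' + 3 * q * q') hi ι hu (V := V) (t := t') hV ht' ht1' (by
    rw [← key, ← e, map_mul, map_pow, mul_assoc _ (1 + 3 * t) (1 + 3 * t'), et, mul_one])
  obtain ⟨⟨m, hm⟩, h2⟩ := h1
  -- `v = ± w ^ (2 b c)`
  have hpm : v * w ^ (b * c) = 1 ∨ v * w ^ (b * c) = -1 := by
    rcases neg_one_pow_eq_or Ei c with h3 | h3 <;> rw [h3] at h2
    · rcases h2 with h2 | h2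
      · left; linear_combination h2
      · right; linear_combination h2
    · rcases h2 with h2 | h2
      · right; linear_combination -h2
      · left; linear_combination -h2
  have hw1 : w ^ (b * c) * w ^ (2 * b * g) = 1 := by
    rw [← pow_add]
    have e1 : b * c + 2 * b * g + 3 * (b * c) = 3 * (2 * (b * m)) := by
      have : 2 * b * g + 4 * (b * c) = 2 * b * (g + 2 * c) := by ring
      rw [hm] at this
      linarith
    have e2 : w ^ (b * c + 2 * b * g + 3 * (b * c)) = 1 := by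
      rw [e1, pow_mul, hw3, one_pow]
    have e3 : (w : Ei) ^ (3 * (b * c)) = 1 := by rw [pow_mul, hw3, one_pow]
    rw [pow_add, e3, mul_one] at e2
    exact e2
  rcases hpm with h3 | h3
  · left
    calc v = v * (w ^ (b * c) * w ^ (2 * b * g)) := by rw [hw1, mul_one]
      _ = v * w ^ (b * c) * w ^ (2 * b * g) := by ring
      _ = w ^ (2 * b * g) := by rw [h3, one_mul]
  · right
    calc v = v * (w ^ (b * c) * w ^ (2 * b * g)) := by rw [hw1, mul_one]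
      _ = v * w ^ (b * c) * w ^ (2 * b * g) := by ring
      _ = -w ^ (2 * b * g) := by rw [h3, neg_one_mul]

/-- the case `k = 0` -/
theorem loc_zero {b : ℕ} {D : Ei} (hD3 : (3 : Ei) ∣ D - 1) (hT : Tw hi (w ^ b * D) u a)
    {v q : Ei} {g : ℕ} (hv : IsUnit v) (hK : Kc hi (v * lam ^ g * (1 + 3 * q)) h)
    (hS : St1 hi ι a h R) : 3 ∣ g := by
  have hI := iota_sq' hi ι
  have hw3 := w_cube
  have hD0 := ne_of_mod hI hD3
  have hA0 : w ^ b * D ≠ 0 := mul_ne_zero (pow_ne_zero _ w_ne) hD0.1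
  have hq0 := ne_of_mod hI (z := 1 + 3 * q) ⟨q, by ring⟩
  have hz0 : v * lam ^ g * (1 + 3 * q) ≠ 0 :=
    mul_ne_zero (mul_ne_zero hv.ne_zero (pow_ne_zero _ prime_lam.ne_zero)) hq0.1
  have hwn : ‖ev (ι i₀) hI w‖ = 1 := by
    have h1 : ev (ι i₀) hI w ^ 3 = 1 := by rw [← map_pow, hw3, map_one]
    have h2 := congrArg norm h1
    rw [norm_pow, norm_one] at h2
    exact (pow_eq_one_iff_of_nonneg (norm_nonneg _) three_ne_zero).1 h2
  have hδn : ‖ev (ι i₀) hI (w ^ b * D)‖ = 1 := by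
    rw [map_mul, map_pow, norm_mul, norm_pow, hwn, one_pow, hD0.2, mul_one]
  have hvn : ‖ev (ι i₀) hI v‖ = 1 := by
    obtain ⟨v', hv'⟩ := hv.exists_right_inv
    have h1 := congrArg (fun z => ‖ev (ι i₀) hI z‖) hv'
    simp only [map_mul, norm_mul, map_one, norm_one] at h1
    have h2 := ev_le hI v
    have h3 := ev_le hI v'
    have h4 := norm_nonneg (ev (ι i₀) hI v)
    have h5 := norm_nonneg (ev (ι i₀) hI v')
    nlinarith
  obtain ⟨c, V, hV, hV0, ε, hε, e⟩ := coreG hA0 hT hz0 hK hS (fun ε => ‖ε‖ = 1) norm_one (by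
      intro X hX Y hY hY0 he
      obtain ⟨V, hV, hV0, e⟩ := ord_norm hδn hX hY hY0 he
      refine ⟨0, V, hV, hV0, Y / V ^ 3, ?_, ?_⟩
      · have hVp : 0 < ‖V‖ := norm_pos_iff.2 hV0
        rw [norm_div, norm_pow, e, div_self (by positivity)]
      · have hV3 : V ^ 3 ≠ 0 := pow_ne_zero 3 hV0
        rw [pow_zero, one_mul, mul_div_cancel₀ _ hV3])
  obtain ⟨m, hm⟩ := val hI (Kl_le hV) hV0
  have h1 := congrArg norm e
  rw [norm_mul, norm_mul, norm_pow, norm_pow, hδn, one_pow, hε, mul_one, mul_one, map_mul, map_mul,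
    norm_mul, norm_mul, hvn, one_mul, hq0.2, mul_one, map_pow, norm_pow] at h1
  have h2 : ‖ev (ι i₀) hI lam‖ ^ 2 = (3 : ℝ) ^ (-1 : ℤ) := by
    rw [← norm_pow, ev_lam_sq, norm_neg, norm_three']
    norm_num
  have h3 : (3 : ℝ) ^ (-(g : ℤ)) = (3 : ℝ) ^ (3 * m) := by
    have e1 : (3 : ℝ) ^ (-(g : ℤ)) = (‖ev (ι i₀) hI lam‖ ^ g) ^ 2 := by
      rw [← pow_mul, mul_comm, pow_mul, h2, ← zpow_natCast, ← zpow_mul]
      congr 1
      ring
    have e2 : (3 : ℝ) ^ (3 * m) = (‖V‖ ^ 3) ^ 2 := by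
      rw [← pow_mul, mul_comm 3 2, pow_mul, hm, ← zpow_natCast, ← zpow_mul]
      congr 1
      push_cast
      ring
    rw [e1, e2, h1]
  have h4 := zpow_right_injective₀ (a := (3 : ℝ)) (by norm_num) (by norm_num) h3
  have h5 : (3 : ℤ) ∣ (g : ℤ) := ⟨-m, by linarith [h4]⟩
  exact_mod_cast h5

end final

end Pool.Agent.E8helper7.CTM
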